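import Pool.Agent.T9h34.Q.Spec

/-!
# Deterministic part of the exchange (piece D1)
-/

set_option autoImplicit false

namespace Pool.Agent.T9h71.QC

open Finset Pool.Agent.T9h34.Q

set_option linter.unusedSectionVars false

variable {V : Type} [Fintype V] [DecidableEq V] {B d m j : ℕ}

theorem mem_ixBelow {a : ℕ} {i : Ix B d m} : i ∈ ixBelow B d m a ↔ (i.1 : ℕ) < a := by
  unfold ixBelow
  rw [mem_filter]
  exact ⟨fun h => h.2, fun h => ⟨mem_univ _, h⟩⟩

theorem mem_star_mark (p : Packet V B d m) (r : Rt B d m) : s(p none, p (some r)) ∈ star p := by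
  unfold T9h34.Q.star
  exact mem_image.2 ⟨r, mem_univ _, rfl⟩

theorem star_sub (ω : Env V B d m) {a : ℕ} {i : Ix B d m} (hi : (i.1 : ℕ) < a) :
    star (ω.2.1 i) ⊆ stage ω a := by
  intro e he
  unfold stage
  exact mem_union_right _ (mem_biUnion.2 ⟨i, mem_ixBelow.2 hi, he⟩)

theorem mem_marks (ω : Env V B d m) {a : ℕ} {A : Finset V} {v : V} (hv : v ∈ A) {i : Ix B d m}
    (hi : (i.1 : ℕ) < a) : s(v, ω.2.2 v i) ∈ marks ω a A := by
  unfold marks
  exact mem_biUnion.2 ⟨v, hv, mem_image.2 ⟨i, mem_ixBelow.2 hi, rfl⟩⟩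

theorem stage_mono (ω : Env V B d m) {a b : ℕ} (h : a ≤ b) : stage ω a ⊆ stage ω b := by
  unfold stage
  refine union_subset_union le_rfl (biUnion_subset_biUnion_of_subset_left _ ?_)
  intro i hi
  rw [mem_ixBelow] at hi ⊢
  omega

theorem val_zero (h : Finset (Sym2 V) → ℝ) (ω : Env V B d m) (φ : Fin j → V) (a : Fin B)
    (hj : j ≤ d) (C A : Finset (Fin j)) (par : Fin j → Fin j) :
    val h ω.1 φ (fun i => ω.2.2 (φ i)) ω.2.1 a hj C A par 0 =
      phi h ω a (leafE φ par Cᶜ) (A.image φ) := by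
  have h1 : marks ω (a : ℕ) (A.image φ) =
      A.biUnion (fun i => (ixBelow B d m a).image (fun b => s(φ i, ω.2.2 (φ i) b))) := by
    unfold marks
    exact image_biUnion
  unfold T9h34.Q.val phi conf
  rw [h1]
  rfl

/-- the edges of the choice `g` -/
theorem conf_sub (ω : Env V B d m) (φ : Fin j → V) (a : Fin B)
    (hj : j ≤ d) (C A : Finset (Fin j)) (par : Fin j → Fin j) (g : Fin j → Fin (m + 1))
    (X : Finset V) (F : Finset (Sym2 V)) (hX : ∀ i ∈ A, g i = 0 → φ i ∈ X)
    (hX' : ∀ w ∉ C, g (par w) = 0 → g w ≠ 0 → φ (par w) ∈ X)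
    (hF : ∀ w ∉ C, g (par w) = 0 → g w = 0 → s(φ (par w), φ w) ∈ F) :
    conf (ω.1 ∪ (ixBelow B d m a).biUnion (fun i => star (ω.2.1 i))) a C A par
      (selC φ ω.2.1 a hj g) (selM (fun i => ω.2.2 (φ i)) ω.2.1 a hj g)
      (selL φ (fun i => ω.2.2 (φ i)) ω.2.1 a hj par g) ⊆
      stage ω (a + 1) ∪ marks ω (a + 1) X ∪ F := by
  have ha : (a : ℕ) < (a : ℕ) + 1 := Nat.lt_succ_self _
  unfold conf
  refine union_subset (union_subset ?_ ?_) ?_
  · intro e he
    exact mem_union_left _ (mem_union_left _ (stage_mono ω (Nat.le_succ _) he))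
  · intro e he
    obtain ⟨i, hi, he⟩ := mem_biUnion.1 he
    obtain ⟨b, hb, rfl⟩ := mem_image.1 he
    rw [mem_ixBelow] at hb
    rcases Fin.eq_zero_or_eq_succ (g i) with h0 | ⟨l, h0⟩
    · have e1 : selC φ ω.2.1 a hj g i = φ i := by unfold selC; rw [h0]; rfl
      have e2 : selM (fun i => ω.2.2 (φ i)) ω.2.1 a hj g i b = ω.2.2 (φ i) b := by
        unfold selM; rw [h0]; rfl
      rw [e1, e2]
      exact mem_union_left _ (mem_union_right _ (mem_marks ω (hX i hi h0) (by omega)))
    · have e1 : selC φ ω.2.1 a hj g i = ω.2.1 (a, Fin.castLE hj i, l) none := by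
        unfold selC; rw [h0]; rfl
      have e2 : selM (fun i => ω.2.2 (φ i)) ω.2.1 a hj g i b =
          ω.2.1 (a, Fin.castLE hj i, l) (some (Sum.inl b)) := by
        unfold selM; rw [h0]; rfl
      rw [e1, e2]
      exact mem_union_left _ (mem_union_left _ (star_sub ω ha (mem_star_mark _ _)))
  · intro e he
    obtain ⟨w, hw, rfl⟩ := mem_image.1 he
    rw [mem_compl] at hw
    rcases Fin.eq_zero_or_eq_succ (g (par w)) with h0 | ⟨l, h0⟩
    · have e1 : selC φ ω.2.1 a hj g (par w) = φ (par w) := by unfold selC; rw [h0]; rfl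
      rw [e1]
      rcases Fin.eq_zero_or_eq_succ (g w) with h1 | ⟨r, h1⟩
      · have e2 : selL φ (fun i => ω.2.2 (φ i)) ω.2.1 a hj par g w = φ w := by
          unfold selL; rw [h0, h1]; rfl
        rw [e2]
        exact mem_union_right _ (hF w hw h0 h1)
      · have e2 : selL φ (fun i => ω.2.2 (φ i)) ω.2.1 a hj par g w =
            ω.2.2 (φ (par w)) (a, Fin.castLE hj w, r) := by
          unfold selL; rw [h0, h1]; rfl
        rw [e2]
        exact mem_union_left _ (mem_union_right _ (mem_marks ω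
          (hX' w hw h0 (by rw [h1]; exact Fin.succ_ne_zero _)) ha))
    · have e1 : selC φ ω.2.1 a hj g (par w) = ω.2.1 (a, Fin.castLE hj (par w), l) none := by
        unfold selC; rw [h0]; rfl
      have e2 : selL φ (fun i => ω.2.2 (φ i)) ω.2.1 a hj par g w =
          ω.2.1 (a, Fin.castLE hj (par w), l) (some (Sum.inr (Fin.castLE hj w, g w))) := by
        unfold selL; rw [h0]; rfl
      rw [e1, e2]
      exact mem_union_left _ (mem_union_left _ (star_sub ω ha (mem_star_mark _ _)))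

/-- PIECE (D1) -/
theorem stDet : StDet := by
  intro V _ _ B d m j a hj h hh φ C A par hAC hpar hleaf ω hcrit g hg
  rw [val_zero]
  by_cases hc : ∃ w, w ∉ C ∧ (g (par w) ≠ 0 ∨ g w ≠ 0)
  · obtain ⟨w0, hw0, hw0'⟩ := hc
    refine lt_of_le_of_lt (hh ?_) (hcrit.1 w0 (mem_compl.2 hw0))
    refine conf_sub ω φ a hj C A par g (univ.image φ) (leafE φ par (Cᶜ.erase w0)) ?_ ?_ ?_
    · intro i _ _
      exact mem_image_of_mem _ (mem_univ _)
    · intro w _ _ _
      exact mem_image_of_mem _ (mem_univ _)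
    · intro w hw h0 h1
      unfold leafE
      refine mem_image.2 ⟨w, mem_erase.2 ⟨?_, mem_compl.2 hw⟩, rfl⟩
      rintro rfl
      rcases hw0' with h2 | h2
      · exact h2 h0
      · exact h2 h1
  · push Not at hc
    obtain ⟨i, hi⟩ : ∃ i, g i ≠ 0 := by
      by_contra hcon
      push Not at hcon
      exact hg (funext hcon)
    have hiC : i ∈ C := by
      by_contra h0
      exact hi (hc i h0).2
    have hiA : i ∈ A := by
      by_contra h0
      obtain ⟨w, hw, rfl⟩ := hleaf i hiC h0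
      exact hi (hc w hw).1
    refine lt_of_le_of_lt (hh ?_) (hcrit.2 i hiA)
    refine conf_sub ω φ a hj C A par g ((A.erase i).image φ) (leafE φ par Cᶜ) ?_ ?_ ?_
    · intro i' hi' h0
      refine mem_image_of_mem _ (mem_erase.2 ⟨?_, hi'⟩)
      rintro rfl
      exact hi h0
    · intro w hw _ h1
      exact absurd (hc w hw).2 h1
    · intro w hw _ _
      unfold leafE
      exact mem_image.2 ⟨w, mem_compl.2 hw, rfl⟩

end Pool.Agent.T9h71.QC
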