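import Pool.Agent.T9h71.QC.Exch

/-!
# One shape (piece F1)
-/

set_option autoImplicit false

namespace Pool.Agent.T9h71.QC

open Finset Pool.Agent.T9h34.Q

theorem card_swap {α β : Type} (p : α → β → Prop) :
    Nat.card {y : α × β // p y.1 y.2} = Nat.card {y : β × α // p y.2 y.1} :=
  Nat.card_congr ((Equiv.prodComm α β).subtypeEquiv fun _ => Iff.rfl)

/-- PIECE (F1) -/
theorem stShape (hCov : StCover) (hExt : StExtra) (hExch : StExch) : StShape := by
  classical
  intro V _ _ B d m j a ha hj h hh F A hF hA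
  obtain ⟨C, par, hAC, hpar, hleaf⟩ := hCov j F A hF hA
  set Q : Type := (Ix B d m → Packet V B d m) × (V → Ix B d m → V) with hQ
  set CS : Finset (Sym2 V) → (Fin j → V) → Q → Prop := fun G φ q =>
    Function.Injective φ ∧ CritS h (G, q) a φ C A par with hCS
  set CR : Finset (Sym2 V) → (Fin j → V) → Q → Prop := fun G φ q =>
    Function.Injective φ ∧ Crit h (G, q) a (F.image (Sym2.map φ)) (A.image φ) (univ.image φ)
    with hCR
  have h1 : ∀ (φ : Fin j → V) (q : Q), Nat.card {G // CR G φ q} ≤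
      2 ^ F.card * Nat.card {G // CS G φ q} := by
    intro φ q
    by_cases hφ : Function.Injective φ
    · have h2 := hExt V B d m j a h hh φ hφ F C A par hAC hpar q.1 q.2
      refine le_trans (card_sub_mono fun G hG => ?_)
        (h2.trans (Nat.mul_le_mul_left _ (card_sub_mono fun G hG => ?_)))
      · exact hG.2
      · exact ⟨hφ, hG⟩
    · have : IsEmpty {G // CR G φ q} := ⟨fun G => hφ G.2.1⟩
      rw [Nat.card_of_isEmpty]
      exact Nat.zero_le _
  have h2 : ∀ G : Finset (Sym2 V), (m + 1) ^ j * Nat.card {x : (Fin j → V) × Q // CS G x.1 x.2} ≤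
      Nat.card ((Fin j → V) × Q) := by
    intro G
    exact hExch V B d m j a ha hj h hh G C A par hAC (fun w hw => (hpar w hw).1) hleaf
  have h3 : Nat.card {x : (Fin j → V) × Env V B d m // Function.Injective x.1 ∧
      Crit h x.2 a (F.image (Sym2.map x.1)) (A.image x.1) (univ.image x.1)} =
      ∑ φ : Fin j → V, ∑ q : Q, Nat.card {G // CR G φ q} := by
    rw [card_sub_prod (fun (φ : Fin j → V) (y : Env V B d m) => Function.Injective φ ∧
      Crit h y a (F.image (Sym2.map φ)) (A.image φ) (univ.image φ))]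
    refine Finset.sum_congr rfl fun φ _ => ?_
    rw [← card_sub_prod (fun (q : Q) (G : Finset (Sym2 V)) => CR G φ q)]
    exact card_swap (fun (G : Finset (Sym2 V)) (q : Q) => CR G φ q)
  have h4 : ∑ φ : Fin j → V, ∑ q : Q, Nat.card {G // CS G φ q} =
      ∑ G : Finset (Sym2 V), Nat.card {x : (Fin j → V) × Q // CS G x.1 x.2} := by
    have e1 : ∀ G : Finset (Sym2 V), Nat.card {x : (Fin j → V) × Q // CS G x.1 x.2} =
        ∑ φ : Fin j → V, Nat.card {q : Q // CS G φ q} := fun G =>
      card_sub_prod (fun (φ : Fin j → V) (q : Q) => CS G φ q)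
    simp only [e1]
    refine Eq.trans (Finset.sum_congr rfl fun φ _ => ?_) (Finset.sum_comm (s := univ)
      (t := univ) (f := fun (φ : Fin j → V) (G : Finset (Sym2 V)) => Nat.card {q : Q // CS G φ q}))
    rw [← card_sub_prod (fun (q : Q) (G : Finset (Sym2 V)) => CS G φ q),
      ← card_sub_prod (fun (G : Finset (Sym2 V)) (q : Q) => CS G φ q)]
    exact card_swap (fun (q : Q) (G : Finset (Sym2 V)) => CS G φ q)
  calc (m + 1) ^ j * Nat.card {x : (Fin j → V) × Env V B d m // Function.Injective x.1 ∧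
      Crit h x.2 a (F.image (Sym2.map x.1)) (A.image x.1) (univ.image x.1)}
      = (m + 1) ^ j * ∑ φ : Fin j → V, ∑ q : Q, Nat.card {G // CR G φ q} := by rw [h3]
    _ ≤ (m + 1) ^ j * ∑ φ : Fin j → V, ∑ q : Q, 2 ^ F.card * Nat.card {G // CS G φ q} :=
        Nat.mul_le_mul_left _ (Finset.sum_le_sum fun φ _ => Finset.sum_le_sum fun q _ => h1 φ q)
    _ = 2 ^ F.card * ((m + 1) ^ j * ∑ φ : Fin j → V, ∑ q : Q, Nat.card {G // CS G φ q}) := by
        simp only [← Finset.mul_sum]
        ring
    _ = 2 ^ F.card * ∑ G : Finset (Sym2 V),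
        (m + 1) ^ j * Nat.card {x : (Fin j → V) × Q // CS G x.1 x.2} := by
        rw [h4, Finset.mul_sum]
    _ ≤ 2 ^ F.card * ∑ _G : Finset (Sym2 V), Nat.card ((Fin j → V) × Q) :=
        Nat.mul_le_mul_left _ (Finset.sum_le_sum fun G _ => h2 G)
    _ = 2 ^ F.card * Nat.card ((Fin j → V) × Env V B d m) := by
        rw [Finset.sum_const, smul_eq_mul, Finset.card_univ, ← Nat.card_eq_fintype_card,
          ← Nat.card_prod]
        congr 1
        refine Nat.card_congr ?_
        exact (Equiv.prodAssoc _ _ _).symm.trans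
          ((Equiv.prodCongr (Equiv.prodComm _ _) (Equiv.refl Q)).trans (Equiv.prodAssoc _ _ _))

end Pool.Agent.T9h71.QC
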