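import Pool.Agent.T9h34.Q.Spec3
import Pool.Agent.T9h71.QC.Shape

/-!
# The exchange, sharp form (pieces D4', F1')
-/

set_option autoImplicit false

namespace Pool.Agent.T9h71.QC

open Finset Pool.Agent.T9h34.Q
open Pool.Agent.PC34 (prob)

theorem prob_card {Ω : Type} [Fintype Ω] (A : Ω → Prop) :
    prob A = (Nat.card {x // A x} : ℝ) / Nat.card Ω := by
  classical
  unfold prob
  rw [Nat.card_eq_fintype_card, Nat.card_eq_fintype_card, Fintype.card_subtype]

/-- the exchange, counting form, for one graph -/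
theorem exch_count (hDet : StDet) (hRot : StRotB) (hFib : StFibre) (V : Type) [Fintype V]
    [DecidableEq V] (B d m j a : ℕ) (ha : a < B) (hj : j ≤ d) (h1j : 1 ≤ j) (h1m : 1 ≤ m)
    (h : Finset (Sym2 V) → ℝ) (hh : Monotone h) (G : Finset (Sym2 V)) (C A : Finset (Fin j))
    (par : Fin j → Fin j) (hAC : A ⊆ C) (hpar : ∀ w ∉ C, par w ∈ C)
    (hleaf : ∀ x ∈ C, x ∉ A → ∃ w ∉ C, par w = x) :
    (m + 1) ^ j * Nat.card {x : (Fin j → V) × (Ix B d m → Packet V B d m) × (V → Ix B d m → V) //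
      Function.Injective x.1 ∧ CritS h (G, x.2) a x.1 C A par} *
      Nat.card (Ix B d m → V) ^ j ≤
    Nat.card {x : (Fin j → V) × (Fin j → Ix B d m → V) × (Ix B d m → Packet V B d m) //
      h (baseG G x.2.2 a) < h (baseG G x.2.2 a ∪ allG x.1 x.2.1 x.2.2 ⟨a, ha⟩ C par)} *
      Nat.card (Ix B d m → V) ^ Fintype.card V := by
  classical
  set M : Type := Ix B d m → V with hM
  set Pk : Type := Ix B d m → Packet V B d m with hPk
  set a' : Fin B := ⟨a, ha⟩ with ha'
  -- the event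
  set P : (Fin j → V) → (Fin j → M) → Pk → Prop := fun φ N pk =>
    ∀ g : Fin j → Fin (m + 1), g ≠ 0 →
      T9h34.Q.val h G φ N pk a' hj C A par g < T9h34.Q.val h G φ N pk a' hj C A par 0 with hP
  have hdet : ∀ (φ : Fin j → V) (pk : Pk) (ν : V → M), CritS h (G, pk, ν) a φ C A par →
      P φ (fun i => ν (φ i)) pk := by
    intro φ pk ν hc g hg
    exact hDet V B d m j a' hj h hh φ C A par hAC hpar hleaf (G, pk, ν) hc g hg
  have hrot := hRot V B d m j a' hj h hh G C A par hAC hpar h1j h1m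
  set Y : (Fin j → V) → Pk → ℕ := fun φ pk => Nat.card {N : Fin j → M // P φ N pk} with hY
  set X : (Fin j → V) → Pk → ℕ := fun φ pk =>
    Nat.card {ν : V → M // Function.Injective φ ∧ CritS h (G, pk, ν) a φ C A par} with hX
  have hXY : ∀ φ pk, X φ pk * Nat.card M ^ j ≤ Y φ pk * Nat.card M ^ Fintype.card V := by
    intro φ pk
    by_cases hφ : Function.Injective φ
    · rw [← hFib V M j φ hφ (fun N => P φ N pk)]
      refine Nat.mul_le_mul_right _ (card_sub_mono fun ν hν => hdet φ pk ν hν.2)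
    · have h0 : X φ pk = 0 := by
        rw [hX]
        have : IsEmpty {ν : V → M // Function.Injective φ ∧ CritS h (G, pk, ν) a φ C A par} :=
          ⟨fun ν => hφ ν.2.1⟩
        exact Nat.card_of_isEmpty
      rw [h0, zero_mul]
      exact Nat.zero_le _
  have hXs : Nat.card {x : (Fin j → V) × Pk × (V → M) //
      Function.Injective x.1 ∧ CritS h (G, x.2) a x.1 C A par} = ∑ φ, ∑ pk, X φ pk := by
    rw [card_sub_prod (fun (φ : Fin j → V) (y : Pk × (V → M)) =>
      Function.Injective φ ∧ CritS h (G, y) a φ C A par)]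
    refine Finset.sum_congr rfl fun φ _ => ?_
    exact card_sub_prod (fun (pk : Pk) (ν : V → M) =>
      Function.Injective φ ∧ CritS h (G, pk, ν) a φ C A par)
  have hYs : Nat.card {x : (Fin j → V) × (Fin j → M) × Pk // P x.1 x.2.1 x.2.2} =
      ∑ φ, ∑ pk, Y φ pk := by
    rw [card_sub_prod (fun (φ : Fin j → V) (y : (Fin j → M) × Pk) => P φ y.1 y.2)]
    refine Finset.sum_congr rfl fun φ _ => ?_
    rw [← card_sub_prod (fun (pk : Pk) (N : Fin j → M) => P φ N pk)]
    exact Nat.card_congr ((Equiv.prodComm (Fin j → M) Pk).subtypeEquiv fun y => Iff.rfl)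
  rw [hXs]
  calc (m + 1) ^ j * (∑ φ, ∑ pk, X φ pk) * Nat.card M ^ j
      = (m + 1) ^ j * ∑ φ, ∑ pk, X φ pk * Nat.card M ^ j := by
        rw [mul_assoc, Finset.sum_mul]
        simp only [Finset.sum_mul]
    _ ≤ (m + 1) ^ j * ∑ φ, ∑ pk, Y φ pk * Nat.card M ^ Fintype.card V :=
        Nat.mul_le_mul_left _ (Finset.sum_le_sum fun φ _ => Finset.sum_le_sum fun pk _ => hXY φ pk)
    _ = (m + 1) ^ j * Nat.card {x : (Fin j → V) × (Fin j → M) × Pk // P x.1 x.2.1 x.2.2} *
        Nat.card M ^ Fintype.card V := by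
        rw [hYs, mul_assoc, Finset.sum_mul]
        simp only [Finset.sum_mul]
    _ ≤ _ := Nat.mul_le_mul_right _ hrot

/-- the exchange, for all monotone functions -/
theorem exch_prob (hDet : StDet) (hRot : StRotB) (hFib : StFibre) (V : Type) [Fintype V]
    [DecidableEq V] [Nonempty V] (B d m j a : ℕ) (ha : a < B) (hj : j ≤ d) (h1j : 1 ≤ j)
    (h1m : 1 ≤ m) (h : Finset (Sym2 V) → ℝ) (hh : Monotone h) (C A : Finset (Fin j))
    (par : Fin j → Fin j) (hAC : A ⊆ C) (hpar : ∀ w ∉ C, par w ∈ C)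
    (hleaf : ∀ x ∈ C, x ∉ A → ∃ w ∉ C, par w = x) :
    ((m : ℝ) + 1) ^ j * prob (fun x : (Fin j → V) × Env V B d m =>
      Function.Injective x.1 ∧ CritS h x.2 a x.1 C A par) ≤
    prob (fun x : Finset (Sym2 V) × (Fin j → V) × (Fin j → Ix B d m → V) ×
      (Ix B d m → Option (Rt B d m) → V) =>
      h (baseG x.1 x.2.2.2 a) < h (baseG x.1 x.2.2.2 a ∪
        allG x.2.1 x.2.2.1 x.2.2.2 ⟨a, ha⟩ C par)) := by
  classical
  set M : Type := Ix B d m → V with hM
  set Pk : Type := Ix B d m → Packet V B d m with hPk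
  have hK : 0 < Nat.card M := Nat.card_pos
  have hL : Nat.card {x : (Fin j → V) × Env V B d m //
      Function.Injective x.1 ∧ CritS h x.2 a x.1 C A par} =
      ∑ G : Finset (Sym2 V), Nat.card {x : (Fin j → V) × Pk × (V → M) //
        Function.Injective x.1 ∧ CritS h (G, x.2) a x.1 C A par} := by
    rw [← card_sub_prod (fun (G : Finset (Sym2 V)) (x : (Fin j → V) × Pk × (V → M)) =>
      Function.Injective x.1 ∧ CritS h (G, x.2) a x.1 C A par)]
    refine Nat.card_congr (Equiv.subtypeEquiv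
      ((Equiv.prodAssoc (Fin j → V) (Finset (Sym2 V)) (Pk × (V → M))).symm.trans
        ((Equiv.prodCongr (Equiv.prodComm _ _) (Equiv.refl _)).trans (Equiv.prodAssoc _ _ _)))
      fun y => Iff.rfl)
  have hR : Nat.card {x : Finset (Sym2 V) × (Fin j → V) × (Fin j → M) × Pk //
      h (baseG x.1 x.2.2.2 a) < h (baseG x.1 x.2.2.2 a ∪
        allG x.2.1 x.2.2.1 x.2.2.2 ⟨a, ha⟩ C par)} =
      ∑ G : Finset (Sym2 V), Nat.card {x : (Fin j → V) × (Fin j → M) × Pk //
        h (baseG G x.2.2 a) < h (baseG G x.2.2 a ∪ allG x.1 x.2.1 x.2.2 ⟨a, ha⟩ C par)} :=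
    card_sub_prod (fun (G : Finset (Sym2 V)) (x : (Fin j → V) × (Fin j → M) × Pk) =>
      h (baseG G x.2.2 a) < h (baseG G x.2.2 a ∪ allG x.1 x.2.1 x.2.2 ⟨a, ha⟩ C par))
  have hsum : (m + 1) ^ j * Nat.card {x : (Fin j → V) × Env V B d m //
      Function.Injective x.1 ∧ CritS h x.2 a x.1 C A par} * Nat.card M ^ j ≤
      Nat.card {x : Finset (Sym2 V) × (Fin j → V) × (Fin j → M) × Pk //
      h (baseG x.1 x.2.2.2 a) < h (baseG x.1 x.2.2.2 a ∪
        allG x.2.1 x.2.2.1 x.2.2.2 ⟨a, ha⟩ C par)} * Nat.card M ^ Fintype.card V := by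
    rw [hL, hR, Finset.mul_sum, Finset.sum_mul, Finset.sum_mul]
    exact Finset.sum_le_sum fun G _ => exch_count hDet hRot hFib V B d m j a ha hj h1j h1m h hh G
      C A par hAC hpar hleaf
  have c1 : Nat.card ((Fin j → V) × Env V B d m) * Nat.card M ^ j =
      Nat.card (Finset (Sym2 V) × (Fin j → V) × (Fin j → M) × Pk) *
        Nat.card M ^ Fintype.card V := by
    show Nat.card ((Fin j → V) × Finset (Sym2 V) × Pk × (V → M)) * Nat.card M ^ j = _
    rw [Nat.card_prod, Nat.card_prod, Nat.card_prod, Nat.card_prod, Nat.card_prod, Nat.card_prod,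
      Nat.card_fun (α := Fin j) (β := M), Nat.card_fun (α := V) (β := M), Nat.card_fin,
      Nat.card_eq_fintype_card (α := V)]
    ring
  have p1 : 0 < Nat.card ((Fin j → V) × Env V B d m) := Nat.card_pos
  have p2 : 0 < Nat.card (Finset (Sym2 V) × (Fin j → V) × (Fin j → M) × Pk) := Nat.card_pos
  rw [prob_card, prob_card, ← mul_div_assoc, div_le_div_iff₀ (by exact_mod_cast p1) (by exact_mod_cast p2)]
  have q0 : 0 < Nat.card M ^ j := pow_pos hK _
  have q1 : 0 < Nat.card M ^ Fintype.card V := pow_pos hK _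
  refine le_of_mul_le_mul_right ?_ (by exact_mod_cast mul_pos q0 q1 :
    (0 : ℝ) < ((Nat.card M ^ j * Nat.card M ^ Fintype.card V : ℕ) : ℝ))
  have key := Nat.mul_le_mul_right
    (Nat.card (Finset (Sym2 V) × (Fin j → V) × (Fin j → M) × Pk) * Nat.card M ^ Fintype.card V) hsum
  have key' : (m + 1) ^ j * Nat.card {x : (Fin j → V) × Env V B d m //
      Function.Injective x.1 ∧ CritS h x.2 a x.1 C A par} *
      Nat.card (Finset (Sym2 V) × (Fin j → V) × (Fin j → M) × Pk) *
      (Nat.card M ^ j * Nat.card M ^ Fintype.card V) ≤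
      Nat.card {x : Finset (Sym2 V) × (Fin j → V) × (Fin j → M) × Pk //
      h (baseG x.1 x.2.2.2 a) < h (baseG x.1 x.2.2.2 a ∪
        allG x.2.1 x.2.2.1 x.2.2.2 ⟨a, ha⟩ C par)} * Nat.card ((Fin j → V) × Env V B d m) *
      (Nat.card M ^ j * Nat.card M ^ Fintype.card V) := by
    rw [← c1] at key
    calc _ = (m + 1) ^ j * Nat.card {x : (Fin j → V) × Env V B d m //
          Function.Injective x.1 ∧ CritS h x.2 a x.1 C A par} * Nat.card M ^ j *
          (Nat.card (Finset (Sym2 V) × (Fin j → V) × (Fin j → M) × Pk) *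
            Nat.card M ^ Fintype.card V) := by ring
      _ = _ := by rw [← c1]
      _ ≤ _ := key
      _ = _ := by ring
  exact_mod_cast key'

/-- PIECE (D4') -/
theorem stExchB (hDet : StDet) (hRot : StRotB) (hFib : StFibre) (hTV : StAllTV) : StExchB := by
  intro V _ _ _ B d m j a ha hj h1j h1m hcard h hh hb C A par hAC hpar hleaf
  exact (exch_prob hDet hRot hFib V B d m j a ha hj h1j h1m h hh C A par hAC hpar hleaf).trans
    (hTV V B d m j ⟨a, ha⟩ hj hcard h hh hb C par hpar)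

/-- one shape, general form -/
theorem shape_of (hCov : StCover) (hExt : StExtra) (V : Type) [Fintype V] [DecidableEq V]
    [Nonempty V] (B d m j a : ℕ) (h : Finset (Sym2 V) → ℝ) (hh : Monotone h) (δ : ℝ)
    (F : Finset (Sym2 (Fin j))) (A : Finset (Fin j)) (hF : ∀ e ∈ F, ¬ e.IsDiag)
    (hA : ∀ v, v ∈ A ∨ ∃ e ∈ F, v ∈ e)
    (hE : ∀ (C : Finset (Fin j)) (par : Fin j → Fin j), A ⊆ C → (∀ w ∉ C, par w ∈ C) →
      (∀ x ∈ C, x ∉ A → ∃ w ∉ C, par w = x) →
      ((m : ℝ) + 1) ^ j * prob (fun x : (Fin j → V) × Env V B d m =>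
        Function.Injective x.1 ∧ CritS h x.2 a x.1 C A par) ≤ δ) :
    ((m : ℝ) + 1) ^ j * prob (fun x : (Fin j → V) × Env V B d m =>
      Function.Injective x.1 ∧ Crit h x.2 a (F.image (Sym2.map x.1)) (A.image x.1)
        (univ.image x.1)) ≤ 2 ^ F.card * δ := by
  classical
  obtain ⟨C, par, hAC, hpar, hleaf⟩ := hCov j F A hF hA
  set Q : Type := (Ix B d m → Packet V B d m) × (V → Ix B d m → V) with hQ
  set CS : Finset (Sym2 V) → (Fin j → V) → Q → Prop := fun G φ q =>
    Function.Injective φ ∧ CritS h (G, q) a φ C A par with hCS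
  set CR : Finset (Sym2 V) → (Fin j → V) → Q → Prop := fun G φ q =>
    Function.Injective φ ∧ Crit h (G, q) a (F.image (Sym2.map φ)) (A.image φ) (univ.image φ)
    with hCR
  have h1 : ∀ (φ : Fin j → V) (q : Q), Nat.card {G // CR G φ q} ≤
      2 ^ F.card * Nat.card {G // CS G φ q} := by
    intro φ q
    by_cases hφ : Function.Injective φ
    · have h2 := hExt V B d m j a h hh φ hφ F C A par hAC hpar q.1 q.2
      refine le_trans (card_sub_mono fun G hG => ?_)
        (h2.trans (Nat.mul_le_mul_left _ (card_sub_mono fun G hG => ?_)))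
      · exact hG.2
      · exact ⟨hφ, hG⟩
    · have : IsEmpty {G // CR G φ q} := ⟨fun G => hφ G.2.1⟩
      rw [Nat.card_of_isEmpty]
      exact Nat.zero_le _
  have h3 : ∀ Θ : Finset (Sym2 V) → (Fin j → V) → Q → Prop,
      Nat.card {x : (Fin j → V) × Env V B d m // Θ x.2.1 x.1 x.2.2} =
      ∑ φ : Fin j → V, ∑ q : Q, Nat.card {G // Θ G φ q} := by
    intro Θ
    rw [card_sub_prod (fun (φ : Fin j → V) (y : Env V B d m) => Θ y.1 φ y.2)]
    refine Finset.sum_congr rfl fun φ _ => ?_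
    rw [← card_sub_prod (fun (q : Q) (G : Finset (Sym2 V)) => Θ G φ q)]
    exact card_swap (fun (G : Finset (Sym2 V)) (q : Q) => Θ G φ q)
  have h4 : Nat.card {x : (Fin j → V) × Env V B d m // CR x.2.1 x.1 x.2.2} ≤
      2 ^ F.card * Nat.card {x : (Fin j → V) × Env V B d m // CS x.2.1 x.1 x.2.2} := by
    rw [h3 CR, h3 CS, Finset.mul_sum]
    refine Finset.sum_le_sum fun φ _ => ?_
    rw [Finset.mul_sum]
    exact Finset.sum_le_sum fun q _ => h1 φ q
  have h5 := hE C par hAC (fun w hw => (hpar w hw).1) hleaf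
  have h6 : prob (fun x : (Fin j → V) × Env V B d m =>
      Function.Injective x.1 ∧ Crit h x.2 a (F.image (Sym2.map x.1)) (A.image x.1)
        (univ.image x.1)) ≤ 2 ^ F.card * prob (fun x : (Fin j → V) × Env V B d m =>
        Function.Injective x.1 ∧ CritS h x.2 a x.1 C A par) := by
    rw [prob_card, prob_card, ← mul_div_assoc]
    refine div_le_div_of_nonneg_right ?_ (Nat.cast_nonneg _)
    exact_mod_cast h4
  calc ((m : ℝ) + 1) ^ j * prob (fun x : (Fin j → V) × Env V B d m =>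
      Function.Injective x.1 ∧ Crit h x.2 a (F.image (Sym2.map x.1)) (A.image x.1)
        (univ.image x.1))
      ≤ ((m : ℝ) + 1) ^ j * (2 ^ F.card * prob (fun x : (Fin j → V) × Env V B d m =>
        Function.Injective x.1 ∧ CritS h x.2 a x.1 C A par)) :=
        mul_le_mul_of_nonneg_left h6 (by positivity)
    _ = 2 ^ F.card * (((m : ℝ) + 1) ^ j * prob (fun x : (Fin j → V) × Env V B d m =>
        Function.Injective x.1 ∧ CritS h x.2 a x.1 C A par)) := by ring
    _ ≤ 2 ^ F.card * δ := mul_le_mul_of_nonneg_left h5 (by positivity)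

/-- PIECE (F1') -/
theorem stShapeB (hCov : StCover) (hExt : StExtra) (hExch : StExchB) : StShapeB := by
  intro V _ _ _ B d m j a ha hj h1j h1m hcard h hh hb F A hF hA
  exact shape_of hCov hExt V B d m j a h hh _ F A hF hA fun C par hAC hpar hleaf =>
    hExch V B d m j a ha hj h1j h1m hcard h hh hb C A par hAC hpar hleaf

end Pool.Agent.T9h71.QC
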