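import Pool.Agent.T9h34.Q.Spec

/-!
# The exchange (piece D4)
-/

set_option autoImplicit false

namespace Pool.Agent.T9h71.QC

open Finset Pool.Agent.T9h34.Q

theorem card_sub_prod {α β : Type} [Fintype α] [Finite β] (p : α → β → Prop) :
    Nat.card {x : α × β // p x.1 x.2} = ∑ a, Nat.card {b // p a b} := by
  rw [Nat.card_congr (Equiv.subtypeProdEquivSigmaSubtype p), Nat.card_sigma]

theorem card_sub_mono {α : Type} [Finite α] {p q : α → Prop} (h : ∀ a, p a → q a) :
    Nat.card {a // p a} ≤ Nat.card {a // q a} :=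
  Nat.card_le_card_of_injective (Subtype.map id h) (Subtype.map_injective h Function.injective_id)

/-- PIECE (D4) -/
theorem stExch (hDet : StDet) (hRot : StRot) (hFib : StFibre) : StExch := by
  classical
  intro V _ _ B d m j a ha hj h hh G C A par hAC hpar hleaf
  set M : Type := Ix B d m → V with hM
  set Pk : Type := Ix B d m → Packet V B d m with hPk
  set a' : Fin B := ⟨a, ha⟩ with ha'
  -- the event
  set P : (Fin j → V) → (Fin j → M) → Pk → Prop := fun φ N pk =>
    ∀ g : Fin j → Fin (m + 1), g ≠ 0 →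
      T9h34.Q.val h G φ N pk a' hj C A par g < T9h34.Q.val h G φ N pk a' hj C A par 0 with hP
  have hdet : ∀ (φ : Fin j → V) (pk : Pk) (ν : V → M), CritS h (G, pk, ν) a φ C A par →
      P φ (fun i => ν (φ i)) pk := by
    intro φ pk ν hc g hg
    exact hDet V B d m j a' hj h hh φ C A par hAC hpar hleaf (G, pk, ν) hc g hg
  have hrot := hRot V B d m j a' hj h G C A par hAC hpar
  set Y : (Fin j → V) → Pk → ℕ := fun φ pk => Nat.card {N : Fin j → M // P φ N pk} with hY
  set X : (Fin j → V) → Pk → ℕ := fun φ pk =>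
    Nat.card {ν : V → M // Function.Injective φ ∧ CritS h (G, pk, ν) a φ C A par} with hX
  have hXY : ∀ φ pk, X φ pk * Nat.card M ^ j ≤ Y φ pk * Nat.card M ^ Fintype.card V := by
    intro φ pk
    by_cases hφ : Function.Injective φ
    · rw [← hFib V M j φ hφ (fun N => P φ N pk)]
      refine Nat.mul_le_mul_right _ (card_sub_mono fun ν hν => hdet φ pk ν hν.2)
    · have h0 : X φ pk = 0 := by
        rw [hX]
        have : IsEmpty {ν : V → M // Function.Injective φ ∧ CritS h (G, pk, ν) a φ C A par} :=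
          ⟨fun ν => hφ ν.2.1⟩
        exact Nat.card_of_isEmpty
      rw [h0, zero_mul]
      exact Nat.zero_le _
  have hXs : Nat.card {x : (Fin j → V) × Pk × (V → M) //
      Function.Injective x.1 ∧ CritS h (G, x.2) a x.1 C A par} = ∑ φ, ∑ pk, X φ pk := by
    rw [card_sub_prod (fun (φ : Fin j → V) (y : Pk × (V → M)) =>
      Function.Injective φ ∧ CritS h (G, y) a φ C A par)]
    refine Finset.sum_congr rfl fun φ _ => ?_
    exact card_sub_prod (fun (pk : Pk) (ν : V → M) =>
      Function.Injective φ ∧ CritS h (G, pk, ν) a φ C A par)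
  have hYs : Nat.card {x : (Fin j → V) × (Fin j → M) × Pk // P x.1 x.2.1 x.2.2} =
      ∑ φ, ∑ pk, Y φ pk := by
    rw [card_sub_prod (fun (φ : Fin j → V) (y : (Fin j → M) × Pk) => P φ y.1 y.2)]
    refine Finset.sum_congr rfl fun φ _ => ?_
    rw [← card_sub_prod (fun (pk : Pk) (N : Fin j → M) => P φ N pk)]
    exact Nat.card_congr ((Equiv.prodComm (Fin j → M) Pk).subtypeEquiv fun y => Iff.rfl)
  have hmain : (m + 1) ^ j * (∑ φ, ∑ pk, X φ pk) * Nat.card M ^ j ≤
      Nat.card ((Fin j → V) × Pk × (V → M)) * Nat.card M ^ j := by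
    calc (m + 1) ^ j * (∑ φ, ∑ pk, X φ pk) * Nat.card M ^ j
        = (m + 1) ^ j * ∑ φ, ∑ pk, X φ pk * Nat.card M ^ j := by
          rw [mul_assoc, Finset.sum_mul]
          simp only [Finset.sum_mul]
      _ ≤ (m + 1) ^ j * ∑ φ, ∑ pk, Y φ pk * Nat.card M ^ Fintype.card V :=
          Nat.mul_le_mul_left _ (Finset.sum_le_sum fun φ _ => Finset.sum_le_sum fun pk _ => hXY φ pk)
      _ = (m + 1) ^ j * Nat.card {x : (Fin j → V) × (Fin j → M) × Pk // P x.1 x.2.1 x.2.2} *
          Nat.card M ^ Fintype.card V := by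
          rw [hYs, mul_assoc, Finset.sum_mul]
          simp only [Finset.sum_mul]
      _ ≤ Nat.card ((Fin j → V) × (Fin j → M) × Pk) * Nat.card M ^ Fintype.card V :=
          Nat.mul_le_mul_right _ hrot
      _ = Nat.card ((Fin j → V) × Pk × (V → M)) * Nat.card M ^ j := by
          rw [Nat.card_prod, Nat.card_prod, Nat.card_prod, Nat.card_prod,
            Nat.card_fun (α := Fin j) (β := M), Nat.card_fun (α := V) (β := M), Nat.card_fin,
            Nat.card_eq_fintype_card (α := V)]
          ring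
  rw [hXs]
  rcases Nat.eq_zero_or_pos (Nat.card M ^ j) with h0 | h0
  · have hj0 : j ≠ 0 := by
      rintro rfl
      simp at h0
    have hM0 : Nat.card M = 0 := (pow_eq_zero_iff hj0).1 h0
    have hVe : IsEmpty V := by
      by_contra hV
      rw [not_isEmpty_iff] at hV
      have : Nonempty M := ⟨fun _ => hV.some⟩
      exact Nat.card_pos.ne' hM0
    have : ∑ φ : Fin j → V, ∑ pk, X φ pk = 0 := by
      refine Finset.sum_eq_zero fun φ _ => ?_
      exact hVe.elim (φ ⟨0, Nat.pos_of_ne_zero hj0⟩)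
    rw [this, mul_zero]
    exact Nat.zero_le _
  · exact Nat.le_of_mul_le_mul_right hmain h0

end Pool.Agent.T9h71.QC
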